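import Mathlib

set_option autoImplicit false
set_option maxHeartbeats 4000000

namespace Pool.Agent.Helper5_half

open Finset

/-- The adjacency function of a graph with real values. -/
noncomputable def adj {n : ℕ} (G : SimpleGraph (Fin n)) (u v : Fin n) : ℝ :=
  open Classical in if G.Adj u v then 1 else 0

/-- The quadratic form of a graph. -/
noncomputable def Q {n : ℕ} (G : SimpleGraph (Fin n)) (x : Fin n → ℝ) : ℝ :=
  ∑ u, ∑ v, adj G u v * x u * x v

theorem adj_nonneg {n : ℕ} (G : SimpleGraph (Fin n)) (u v : Fin n) : 0 ≤ adj G u v := by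
  unfold adj; split_ifs <;> norm_num

theorem adj_le_one {n : ℕ} (G : SimpleGraph (Fin n)) (u v : Fin n) : adj G u v ≤ 1 := by
  unfold adj; split_ifs <;> norm_num

theorem adj_comm {n : ℕ} (G : SimpleGraph (Fin n)) (u v : Fin n) : adj G u v = adj G v u := by
  unfold adj
  by_cases h : G.Adj u v
  · rw [if_pos h, if_pos h.symm]
  · rw [if_neg h, if_neg (fun h' => h h'.symm)]

theorem adj_self {n : ℕ} (G : SimpleGraph (Fin n)) (u : Fin n) : adj G u u = 0 := by
  unfold adj; simp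

/-- The codegree function. -/
noncomputable def cod {n : ℕ} (G : SimpleGraph (Fin n)) (u v : Fin n) : ℝ :=
  ∑ z, adj G u z * adj G z v

theorem cod_comm {n : ℕ} (G : SimpleGraph (Fin n)) (u v : Fin n) : cod G u v = cod G v u := by
  unfold cod
  refine Finset.sum_congr rfl fun z _ => ?_
  rw [adj_comm G u z, adj_comm G z v, mul_comm]

theorem cod_nonneg {n : ℕ} (G : SimpleGraph (Fin n)) (u v : Fin n) : 0 ≤ cod G u v :=
  Finset.sum_nonneg fun z _ => mul_nonneg (adj_nonneg G u z) (adj_nonneg G z v)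

theorem cod_le {n : ℕ} (G : SimpleGraph (Fin n)) (u v : Fin n) : cod G u v ≤ n := by
  unfold cod
  calc ∑ z, adj G u z * adj G z v ≤ ∑ _z : Fin n, (1:ℝ) := by
        refine Finset.sum_le_sum fun z _ => ?_
        nlinarith [adj_nonneg G u z, adj_nonneg G z v, adj_le_one G u z, adj_le_one G z v]
    _ = n := by simp

/-- sum of codegrees is large -/
theorem sum_cod_ge {n : ℕ} (G : SimpleGraph (Fin n)) (hn : 0 < n) (d : ℝ) (hd : 0 ≤ d)
    (hs : d * (n:ℝ)^2 ≤ ∑ u, ∑ v, adj G u v) :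
    d^2 * (n:ℝ)^3 ≤ ∑ u, ∑ v, cod G u v := by
  have hn' : (0:ℝ) < n := by exact_mod_cast hn
  have h1 : ∑ u, ∑ v, cod G u v = ∑ z, (∑ u, adj G u z)^2 := by
    unfold cod
    have : ∀ u : Fin n, ∑ v, ∑ z, adj G u z * adj G z v = ∑ z, ∑ v, adj G u z * adj G z v :=
      fun u => Finset.sum_comm
    simp_rw [this]
    rw [Finset.sum_comm]
    refine Finset.sum_congr rfl fun z _ => ?_
    rw [sq, Finset.sum_mul_sum]
    refine Finset.sum_congr rfl fun u _ => ?_
    refine Finset.sum_congr rfl fun v _ => ?_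
    rw [adj_comm G z v]
  have h2 : (∑ z, ∑ u, adj G u z)^2 ≤ (n:ℝ) * ∑ z, (∑ u, adj G u z)^2 := by
    have := sq_sum_le_card_mul_sum_sq (s := (Finset.univ : Finset (Fin n)))
      (f := fun z => ∑ u, adj G u z)
    simpa using this
  have h3 : ∑ z, ∑ u, adj G u z = ∑ u, ∑ v, adj G u v := Finset.sum_comm
  rw [h3] at h2
  rw [h1]
  have h4 : (d * (n:ℝ)^2)^2 ≤ (∑ u, ∑ v, adj G u v)^2 :=
    pow_le_pow_left₀ (by positivity) hs 2
  have h5 : (n:ℝ) * (d^2 * (n:ℝ)^3) ≤ (n:ℝ) * ∑ z, (∑ u, adj G u z)^2 := by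
    calc (n:ℝ) * (d^2 * (n:ℝ)^3) = (d * (n:ℝ)^2)^2 := by ring
      _ ≤ _ := h4.trans h2
  exact le_of_mul_le_mul_left h5 hn'

theorem sum_cod_sq_ge {n : ℕ} (G : SimpleGraph (Fin n)) (hn : 0 < n) (d : ℝ) (hd : 0 ≤ d)
    (hs : d * (n:ℝ)^2 ≤ ∑ u, ∑ v, adj G u v) :
    d^4 * (n:ℝ)^4 ≤ ∑ u, ∑ v, (cod G u v)^2 := by
  have hn' : (0:ℝ) < n := by exact_mod_cast hn
  have h0 := sum_cod_ge G hn d hd hs
  have h1 : (∑ p : Fin n × Fin n, cod G p.1 p.2)^2 ≤
      ((n:ℝ)^2) * ∑ p : Fin n × Fin n, (cod G p.1 p.2)^2 := by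
    have := sq_sum_le_card_mul_sum_sq (s := (Finset.univ : Finset (Fin n × Fin n)))
      (f := fun p => cod G p.1 p.2)
    simpa [sq] using this
  rw [Fintype.sum_prod_type, Fintype.sum_prod_type] at h1
  have h4 : (d^2 * (n:ℝ)^3)^2 ≤ (∑ u, ∑ v, cod G u v)^2 :=
    pow_le_pow_left₀ (by positivity) h0 2
  have h5 : (n:ℝ)^2 * (d^4 * (n:ℝ)^4) ≤ (n:ℝ)^2 * ∑ u, ∑ v, (cod G u v)^2 := by
    calc (n:ℝ)^2 * (d^4 * (n:ℝ)^4) = (d^2 * (n:ℝ)^3)^2 := by ring
      _ ≤ _ := h4.trans h1
  exact le_of_mul_le_mul_left h5 (by positivity)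

/-- number of triangles (as closed walks) at a vertex -/
noncomputable def tri {n : ℕ} (G : SimpleGraph (Fin n)) (v : Fin n) : ℝ :=
  ∑ u, ∑ w, adj G u w * adj G v u * adj G v w

theorem tri_sum_ge {n : ℕ} (G : SimpleGraph (Fin n)) (hn : 0 < n) (d η : ℝ) (hd : 0 ≤ d)
    (hd1 : d ≤ 1)
    (hs : d * (n:ℝ)^2 ≤ ∑ u, ∑ v, adj G u v)
    (hQ : ∀ x : Fin n → ℝ, (∀ v, |x v| ≤ 1) → -(η * (n:ℝ)^2) ≤ Q G x) :
    (d^8 - η) * (n:ℝ)^3 ≤ ∑ v, tri G v := by
  have hn' : (0:ℝ) < n := by exact_mod_cast hn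
  set β : ℝ := d^4 with hβ
  have hβ0 : 0 ≤ β := by positivity
  have hβ1 : β ≤ 1 := pow_le_one₀ hd hd1
  -- expansion at a vertex
  have key : ∀ v : Fin n, Q G (fun u => adj G v u - β / n * cod G v u) =
      tri G v - 2 * (β / n) * (∑ w, cod G v w * (cod G v w))
        + (β / n)^2 * ∑ u, ∑ w, adj G u w * cod G v u * cod G v w := by
    intro v
    unfold Q tri
    have e1 : ∀ u w : Fin n, adj G u w * (adj G v u - β / n * cod G v u) *
        (adj G v w - β / n * cod G v w) =
        adj G u w * adj G v u * adj G v w - (β / n) * (adj G v u * adj G u w * cod G v w)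
        - (β / n) * (adj G v w * adj G w u * cod G v u)
        + (β / n)^2 * (adj G u w * cod G v u * cod G v w) := by
      intro u w
      rw [adj_comm G w u]; ring
    simp_rw [e1, Finset.sum_add_distrib, Finset.sum_sub_distrib, ← Finset.mul_sum]
    have e2 : ∑ u, ∑ w, adj G v u * adj G u w * cod G v w = ∑ w, cod G v w * cod G v w := by
      rw [Finset.sum_comm]
      refine Finset.sum_congr rfl fun w _ => ?_
      rw [← Finset.sum_mul]; rfl
    have e3 : ∑ u, ∑ w, adj G v w * adj G w u * cod G v u = ∑ w, cod G v w * cod G v w := by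
      refine Finset.sum_congr rfl fun u _ => ?_
      rw [← Finset.sum_mul]; rfl
    rw [e2, e3]; ring
  have hb : ∀ v u : Fin n, |adj G v u - β / n * cod G v u| ≤ 1 := by
    intro v u
    have h1 : β / n * cod G v u ≤ 1 := by
      calc β / n * cod G v u ≤ β / n * n := by
            apply mul_le_mul_of_nonneg_left (cod_le G v u); positivity
        _ = β := by field_simp
        _ ≤ 1 := hβ1
    have h2 : 0 ≤ β / n * cod G v u := mul_nonneg (by positivity) (cod_nonneg G v u)
    rw [abs_le]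
    constructor <;> linarith [adj_nonneg G v u, adj_le_one G v u]
  have hsum : ∑ v : Fin n, -(η * (n:ℝ)^2) ≤ ∑ v, (tri G v
        - 2 * (β / n) * (∑ w, cod G v w * (cod G v w))
        + (β / n)^2 * ∑ u, ∑ w, adj G u w * cod G v u * cod G v w) := by
    refine Finset.sum_le_sum fun v _ => ?_
    rw [← key v]
    exact hQ _ (hb v)
  rw [Finset.sum_add_distrib, Finset.sum_sub_distrib, ← Finset.mul_sum, ← Finset.mul_sum] at hsum
  simp only [Finset.sum_const, Finset.card_univ, Fintype.card_fin, nsmul_eq_mul] at hsum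
  have h4 : d^4 * (n:ℝ)^4 ≤ ∑ v, ∑ w, cod G v w * (cod G v w) := by
    have := sum_cod_sq_ge G hn d hd hs
    simpa [sq] using this
  have h5 : ∑ v, ∑ u, ∑ w, adj G u w * cod G v u * cod G v w ≤ (n:ℝ)^5 := by
    calc ∑ v, ∑ u, ∑ w, adj G u w * cod G v u * cod G v w
        ≤ ∑ _v : Fin n, ∑ _u : Fin n, ∑ _w : Fin n, (n:ℝ)^2 := by
          refine Finset.sum_le_sum fun v _ => Finset.sum_le_sum fun u _ =>
            Finset.sum_le_sum fun w _ => ?_
          calc adj G u w * cod G v u * cod G v w ≤ 1 * n * n := by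
                apply mul_le_mul _ (cod_le G v w) (cod_nonneg G v w) (by positivity)
                exact mul_le_mul (adj_le_one G u w) (cod_le G v u) (cod_nonneg G v u) zero_le_one
            _ = (n:ℝ)^2 := by ring
      _ = (n:ℝ)^5 := by simp; ring
  have h6 : 2 * (β / n) * (d^4 * (n:ℝ)^4) ≤ 2 * (β / n) * ∑ v, ∑ w, cod G v w * (cod G v w) :=
    mul_le_mul_of_nonneg_left h4 (by positivity)
  have h7 : (β / n)^2 * ∑ v, ∑ u, ∑ w, adj G u w * cod G v u * cod G v w ≤
      (β / n)^2 * (n:ℝ)^5 := mul_le_mul_of_nonneg_left h5 (by positivity)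
  have h8 : 2 * (β / n) * (d^4 * (n:ℝ)^4) = 2 * d^8 * (n:ℝ)^3 := by
    rw [hβ]; field_simp
  have h9 : (β / n)^2 * (n:ℝ)^5 = d^8 * (n:ℝ)^3 := by
    rw [hβ]; field_simp
  rw [h8] at h6
  rw [h9] at h7
  nlinarith [hsum, h6, h7]

/-- The link graph: edges inside the neighbourhood of `v`. -/
def link {n : ℕ} (G : SimpleGraph (Fin n)) (v : Fin n) : SimpleGraph (Fin n) where
  Adj u w := G.Adj u w ∧ G.Adj v u ∧ G.Adj v w
  symm := ⟨fun u w h => ⟨h.1.symm, h.2.2, h.2.1⟩⟩
  loopless := ⟨fun u h => G.irrefl h.1⟩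

theorem adj_link {n : ℕ} (G : SimpleGraph (Fin n)) (v u w : Fin n) :
    adj (link G v) u w = adj G u w * adj G v u * adj G v w := by
  unfold adj link
  by_cases h1 : G.Adj u w <;> by_cases h2 : G.Adj v u <;> by_cases h3 : G.Adj v w <;>
    simp [h1, h2, h3]

theorem adj_mul_self {n : ℕ} (G : SimpleGraph (Fin n)) (v u : Fin n) :
    adj G v u * adj G v u = adj G v u := by
  unfold adj; split_ifs <;> norm_num

/-- Main induction. -/
theorem clique_of_pos (k : ℕ) : ∀ d : ℝ, 0 < d → ∃ η : ℝ, 0 < η ∧ ∀ n : ℕ, 0 < n →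
    ∀ G : SimpleGraph (Fin n), d * (n:ℝ)^2 ≤ ∑ u, ∑ v, adj G u v →
    (∀ x : Fin n → ℝ, (∀ v, |x v| ≤ 1) → -(η * (n:ℝ)^2) ≤ Q G x) →
    ∃ s : Finset (Fin n), G.IsNClique (k + 2) s := by
  induction k with
  | zero =>
    intro d hd
    refine ⟨1, one_pos, fun n hn G hs _ => ?_⟩
    have hn' : (0:ℝ) < n := by exact_mod_cast hn
    by_contra hno
    have hz : ∀ u v : Fin n, ¬ G.Adj u v := by
      intro u v huv
      apply hno
      refine ⟨{u, v}, ?_⟩
      classical
      rw [SimpleGraph.isNClique_iff]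
      refine ⟨?_, Finset.card_pair huv.ne⟩
      rw [Finset.coe_pair, SimpleGraph.isClique_pair]
      intro _
      exact huv
    have : ∑ u, ∑ v, adj G u v = 0 := by
      refine Finset.sum_eq_zero fun u _ => Finset.sum_eq_zero fun v _ => ?_
      unfold adj; simp [hz u v]
    rw [this] at hs
    have : 0 < d * (n:ℝ)^2 := by positivity
    linarith
  | succ k ih =>
    intro d₀ hd₀
    set d := min d₀ 1 with hdef
    have hd : 0 < d := lt_min hd₀ one_pos
    have hd1 : d ≤ 1 := min_le_right _ _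
    obtain ⟨η', hη', H⟩ := ih (d^8/2) (by positivity)
    refine ⟨min (d^8/2) η', lt_min (by positivity) hη', fun n hn G hs hQ => ?_⟩
    have hn' : (0:ℝ) < n := by exact_mod_cast hn
    have hs' : d * (n:ℝ)^2 ≤ ∑ u, ∑ v, adj G u v :=
      le_trans (mul_le_mul_of_nonneg_right (min_le_left _ _) (by positivity)) hs
    have h1 := tri_sum_ge G hn d (min (d^8/2) η') hd.le hd1 hs' hQ
    have h2 : (d^8/2) * (n:ℝ)^3 ≤ ∑ v, tri G v := by
      refine le_trans ?_ h1
      apply mul_le_mul_of_nonneg_right _ (by positivity)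
      linarith [min_le_left (d^8/2) η']
    obtain ⟨v, hv⟩ : ∃ v, (d^8/2) * (n:ℝ)^2 ≤ tri G v := by
      by_contra hcon
      push Not at hcon
      have : ∑ v, tri G v < ∑ _v : Fin n, (d^8/2) * (n:ℝ)^2 :=
        Finset.sum_lt_sum_of_nonempty ⟨⟨0, hn⟩, Finset.mem_univ _⟩ fun v _ => hcon v
      rw [Finset.sum_const, Finset.card_univ, Fintype.card_fin, nsmul_eq_mul] at this
      nlinarith
    obtain ⟨s, hs2⟩ := H n hn (link G v) (by
        refine le_trans hv (le_of_eq ?_)
        unfold tri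
        refine Finset.sum_congr rfl fun u _ => Finset.sum_congr rfl fun w _ => ?_
        rw [adj_link]) (by
        intro x hx
        have := hQ (fun u => adj G v u * x u) (by
          intro u
          rw [abs_mul]
          have h1 : |adj G v u| ≤ 1 := by
            rw [abs_of_nonneg (adj_nonneg G v u)]; exact adj_le_one G v u
          calc |adj G v u| * |x u| ≤ 1 * 1 := mul_le_mul h1 (hx u) (abs_nonneg _) zero_le_one
            _ = 1 := by norm_num)
        have e : Q G (fun u => adj G v u * x u) = Q (link G v) x := by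
          unfold Q
          refine Finset.sum_congr rfl fun u _ => Finset.sum_congr rfl fun w _ => ?_
          rw [adj_link]; ring
        rw [e] at this
        refine le_trans ?_ this
        have : min (d^8/2) η' * (n:ℝ)^2 ≤ η' * (n:ℝ)^2 :=
          mul_le_mul_of_nonneg_right (min_le_right _ _) (by positivity)
        linarith)
    -- s is a clique in the link, add v
    rw [SimpleGraph.isNClique_iff] at hs2
    have hsN : ∀ u ∈ s, G.Adj v u := by
      intro u hu
      have hcard : 1 < s.card := by rw [hs2.2]; omega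
      obtain ⟨w, hw, hwu⟩ := Finset.exists_mem_ne hcard u
      exact (hs2.1 hw hu hwu).2.2
    classical
    refine ⟨insert v s, ?_⟩
    rw [SimpleGraph.isNClique_iff]
    have hvs : v ∉ s := fun h => G.irrefl (hsN v h)
    refine ⟨?_, by rw [Finset.card_insert_of_notMem hvs, hs2.2]⟩
    rw [Finset.coe_insert, SimpleGraph.isClique_insert]
    refine ⟨?_, ?_⟩
    · intro a ha b hb hab
      exact (hs2.1 ha hb hab).1
    · intro b hb _
      exact hsN b hb

end Pool.Agent.Helper5_half
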