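import Pool.Agent.Helper5_half.Core

set_option autoImplicit false
set_option maxHeartbeats 4000000

namespace Pool.Agent.Helper5_half

open Finset

/-- number of edges as half of the sum of the adjacency function -/
theorem sum_adj_eq {n : ℕ} (G : SimpleGraph (Fin n)) :
    ∑ u, ∑ v, adj G u v = 2 * (G.edgeSet.ncard : ℝ) := by
  classical
  have h1 : ∑ u, ∑ v, adj G u v = ((∑ u, G.degree u : ℕ) : ℝ) := by
    push_cast
    refine Finset.sum_congr rfl fun u _ => ?_
    unfold adj
    rw [← SimpleGraph.card_neighborFinset_eq_degree, SimpleGraph.neighborFinset_eq_filter,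
      Finset.card_filter]
    push_cast
    refine Finset.sum_congr rfl fun v _ => ?_
    by_cases h : G.Adj u v <;> simp [h]
  rw [h1, G.sum_degrees_eq_twice_card_edges]
  have h2 : G.edgeSet.ncard = #G.edgeFinset := by
    rw [← SimpleGraph.coe_edgeFinset, Set.ncard_coe_finset]
  rw [h2]; push_cast; ring

/-- restriction of a graph to a set of vertices, same vertex type -/
def restr {n : ℕ} (G : SimpleGraph (Fin n)) (W : Finset (Fin n)) : SimpleGraph (Fin n) where
  Adj u v := G.Adj u v ∧ u ∈ W ∧ v ∈ W
  symm := ⟨fun u v h => ⟨h.1.symm, h.2.2, h.2.1⟩⟩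
  loopless := ⟨fun u h => G.irrefl h.1⟩

theorem restr_edgeSet {n : ℕ} (G : SimpleGraph (Fin n)) (W : Finset (Fin n)) :
    (restr G W).edgeSet = {e : Sym2 (Fin n) | e ∈ G.edgeSet ∧ ∀ v ∈ e, v ∈ W} := by
  ext e
  induction e using Sym2.ind with
  | _ a b =>
    simp only [SimpleGraph.mem_edgeSet, Set.mem_ofPred_eq, Sym2.mem_iff]
    constructor
    · rintro ⟨h1, h2, h3⟩
      refine ⟨h1, ?_⟩
      rintro v (rfl | rfl) <;> assumption
    · rintro ⟨h1, h2⟩
      exact ⟨h1, h2 a (Or.inl rfl), h2 b (Or.inr rfl)⟩

open Classical in
theorem Q_indicator {n : ℕ} (G : SimpleGraph (Fin n)) (W : Finset (Fin n)) :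
    Q G (fun v => if v ∈ W then 1 else 0) =
      2 * (({e : Sym2 (Fin n) | e ∈ G.edgeSet ∧ ∀ v ∈ e, v ∈ W}).ncard : ℝ) := by
  rw [← restr_edgeSet, ← sum_adj_eq]
  unfold Q
  refine Finset.sum_congr rfl fun u _ => Finset.sum_congr rfl fun v _ => ?_
  unfold adj restr
  by_cases h1 : G.Adj u v <;> by_cases h2 : u ∈ W <;> by_cases h3 : v ∈ W <;>
    simp [h1, h2, h3]

/-- Expansion of the quadratic form. -/
theorem Q_add {n : ℕ} (G : SimpleGraph (Fin n)) (x y : Fin n → ℝ) (t : ℝ) :
    Q G (fun v => x v + t * y v) =
      Q G x + 2 * t * (∑ u, ∑ v, adj G u v * x u * y v) + t^2 * Q G y := by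
  have e : ∑ u, ∑ v, adj G u v * y u * x v = ∑ u, ∑ v, adj G u v * x u * y v := by
    rw [Finset.sum_comm]
    refine Finset.sum_congr rfl fun u _ => Finset.sum_congr rfl fun v _ => ?_
    rw [adj_comm G v u]; ring
  have : Q G (fun v => x v + t * y v) = Q G x + t * (∑ u, ∑ v, adj G u v * x u * y v)
      + t * (∑ u, ∑ v, adj G u v * y u * x v) + t^2 * Q G y := by
    unfold Q
    simp only [Finset.mul_sum, ← Finset.sum_add_distrib]
    refine Finset.sum_congr rfl fun u _ => Finset.sum_congr rfl fun v _ => ?_
    ring
  rw [this, e]; ring

/-- Pipage rounding: a lower bound on all `m`-sets is a lower bound on the fractional points of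
weight `m`. -/
theorem pipage {n : ℕ} (G : SimpleGraph (Fin n)) (m : ℕ) (L : ℝ)
    (h : ∀ W : Finset (Fin n), W.card = m →
      L ≤ 2 * (({e : Sym2 (Fin n) | e ∈ G.edgeSet ∧ ∀ v ∈ e, v ∈ W}).ncard : ℝ)) :
    ∀ (N : ℕ) (x : Fin n → ℝ), (∀ v, 0 ≤ x v) → (∀ v, x v ≤ 1) → ∑ v, x v = m →
      (Finset.univ.filter (fun v => 0 < x v ∧ x v < 1)).card = N → L ≤ Q G x := by
  classical
  intro N
  induction N using Nat.strong_induction_on with
  | _ N ih =>
    intro x h0 h1 hsum hN
    by_cases hfr : (Finset.univ.filter (fun v => 0 < x v ∧ x v < 1)) = ∅
    · -- integral point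
      have hint : ∀ v, x v = 0 ∨ x v = 1 := by
        intro v
        by_contra hcon
        push Not at hcon
        have : v ∈ (Finset.univ.filter (fun v => 0 < x v ∧ x v < 1)) := by
          simp only [Finset.mem_filter, Finset.mem_univ, true_and]
          exact ⟨lt_of_le_of_ne (h0 v) (Ne.symm hcon.1), lt_of_le_of_ne (h1 v) hcon.2⟩
        rw [hfr] at this
        simp at this
      set W : Finset (Fin n) := Finset.univ.filter (fun v => x v = 1) with hW
      have hx : x = fun v => if v ∈ W then 1 else 0 := by
        funext v
        rcases hint v with hv | hv <;> simp [hW, hv]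
      have hcard : W.card = m := by
        have : (W.card : ℝ) = m := by
          rw [← hsum]
          conv_rhs => rw [hx]
          simp
        exact_mod_cast this
      have e := Q_indicator G W
      rw [hx]
      have := h W hcard
      refine le_trans this (le_of_eq ?_)
      rw [← e]
    · -- two fractional coordinates
      obtain ⟨a, ha⟩ := Finset.nonempty_iff_ne_empty.2 hfr
      have ha' : 0 < x a ∧ x a < 1 := by simpa using ha
      have hb : ∃ b, b ≠ a ∧ 0 < x b ∧ x b < 1 := by
        by_contra hcon
        push Not at hcon
        have hint : ∀ v, v ≠ a → x v = 0 ∨ x v = 1 := by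
          intro v hv
          by_cases h2 : 0 < x v
          · right; exact le_antisymm (h1 v) (hcon v hv h2)
          · left; exact le_antisymm (not_lt.1 h2) (h0 v)
        have hs : ∑ v ∈ Finset.univ.erase a, x v =
            (((Finset.univ.erase a).filter (fun v => x v = 1)).card : ℝ) := by
          rw [Finset.card_filter]
          push_cast
          refine Finset.sum_congr rfl fun v hv => ?_
          rcases hint v (Finset.ne_of_mem_erase hv) with h3 | h3 <;> simp [h3]
        have hs2 := Finset.sum_erase_add Finset.univ x (Finset.mem_univ a)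
        rw [hs, hsum] at hs2
        have h4 : (((Finset.univ.erase a).filter (fun v => x v = 1)).card : ℝ) < m := by linarith
        have h5 : (m : ℝ) < (((Finset.univ.erase a).filter (fun v => x v = 1)).card : ℝ) + 1 := by
          linarith
        have h4' : ((Finset.univ.erase a).filter (fun v => x v = 1)).card < m := by
          exact_mod_cast h4
        have h5' : m < ((Finset.univ.erase a).filter (fun v => x v = 1)).card + 1 := by
          exact_mod_cast h5
        omega
      obtain ⟨b, hba, hb0, hb1⟩ := hb
      -- direction y = e_a - e_b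
      set y : Fin n → ℝ := fun v => (if v = a then 1 else 0) - (if v = b then 1 else 0) with hy
      have hya : y a = 1 := by simp [hy, Ne.symm hba]
      have hyb : y b = -1 := by simp [hy, hba]
      have hyo : ∀ v, v ≠ a → v ≠ b → y v = 0 := by
        intro v h2 h3; simp [hy, h2, h3]
      have hysum : ∑ v, y v = 0 := by
        simp [hy, Finset.sum_sub_distrib]
      have hQy : Q G y ≤ 0 := by
        have e : Q G y = ∑ u, y u * (∑ v, adj G u v * y v) := by
          unfold Q
          refine Finset.sum_congr rfl fun u _ => ?_
          rw [Finset.mul_sum]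
          refine Finset.sum_congr rfl fun v _ => ?_
          ring
        have e2 : ∀ f : Fin n → ℝ, ∑ v, f v * y v = f a - f b := by
          intro f
          simp only [hy, mul_sub, Finset.sum_sub_distrib]
          simp
        have e3 : ∑ u, y u * (∑ v, adj G u v * y v) =
            (∑ v, adj G a v * y v) - (∑ v, adj G b v * y v) := by
          rw [← e2 (fun u => ∑ v, adj G u v * y v)]
          refine Finset.sum_congr rfl fun u _ => mul_comm _ _
        rw [e, e3, e2 (fun v => adj G a v), e2 (fun v => adj G b v), adj_self, adj_self,
          adj_comm G b a]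
        linarith [adj_nonneg G a b]
      set B : ℝ := ∑ u, ∑ v, adj G u v * x u * y v with hB
      -- general step
      have step : ∀ t : ℝ, (∀ v, 0 ≤ x v + t * y v) → (∀ v, x v + t * y v ≤ 1) →
          t * B ≤ 0 →
          (x a + t = 0 ∨ x a + t = 1 ∨ x b - t = 0 ∨ x b - t = 1) → L ≤ Q G x := by
        intro t ht0 ht1 htB hint
        have hle : Q G (fun v => x v + t * y v) ≤ Q G x := by
          rw [Q_add]
          have : t^2 * Q G y ≤ 0 := mul_nonpos_of_nonneg_of_nonpos (sq_nonneg t) hQy
          rw [← hB]
          nlinarith
        refine le_trans ?_ hle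
        have hlt : (Finset.univ.filter (fun v => 0 < x v + t * y v ∧ x v + t * y v < 1)).card
            < N := by
          rw [← hN]
          apply Finset.card_lt_card
          rw [Finset.ssubset_iff_of_subset]
          · rcases hint with h2 | h2 | h2 | h2
            · exact ⟨a, by simp [ha'], by simp [hya, h2]⟩
            · exact ⟨a, by simp [ha'], by simp [hya, h2]⟩
            · refine ⟨b, by simp [hb0, hb1], ?_⟩
              simp only [Finset.mem_filter, Finset.mem_univ, true_and, hyb]
              intro h3; linarith [h3.1]
            · refine ⟨b, by simp [hb0, hb1], ?_⟩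
              simp only [Finset.mem_filter, Finset.mem_univ, true_and, hyb]
              intro h3; linarith [h3.2]
          · intro v hv
            simp only [Finset.mem_filter, Finset.mem_univ, true_and] at hv ⊢
            by_cases hva : v = a
            · rw [hva]; exact ha'
            · by_cases hvb : v = b
              · rw [hvb]; exact ⟨hb0, hb1⟩
              · rw [hyo v hva hvb] at hv
                simpa using hv
        refine ih _ hlt (fun v => x v + t * y v) ht0 ht1 ?_ rfl
        rw [Finset.sum_add_distrib, ← Finset.mul_sum, hysum, hsum]; ring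
      rcases le_total 0 B with hB0 | hB0
      · -- move in the negative direction: t = -min (x a) (1 - x b)
        have hmin := le_total (x a) (1 - x b)
        apply step (-(min (x a) (1 - x b)))
        · intro v
          by_cases hva : v = a
          · rw [hva, hya]; linarith [min_le_left (x a) (1 - x b)]
          · by_cases hvb : v = b
            · rw [hvb, hyb]
              have : 0 ≤ min (x a) (1 - x b) := le_min ha'.1.le (by linarith)
              linarith
            · rw [hyo v hva hvb]; simpa using h0 v
        · intro v
          by_cases hva : v = a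
          · rw [hva, hya]
            have : 0 ≤ min (x a) (1 - x b) := le_min ha'.1.le (by linarith)
            linarith [ha'.2]
          · by_cases hvb : v = b
            · rw [hvb, hyb]; linarith [min_le_right (x a) (1 - x b)]
            · rw [hyo v hva hvb]; simpa using h1 v
        · have : 0 ≤ min (x a) (1 - x b) := le_min ha'.1.le (by linarith)
          nlinarith
        · rcases hmin with h2 | h2
          · left; rw [min_eq_left h2]; ring
          · right; right; right; rw [min_eq_right h2]; ring
      · apply step (min (1 - x a) (x b))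
        · intro v
          have hm0 : 0 ≤ min (1 - x a) (x b) := le_min (by linarith [ha'.2]) hb0.le
          by_cases hva : v = a
          · rw [hva, hya]; linarith [ha'.1]
          · by_cases hvb : v = b
            · rw [hvb, hyb]; linarith [min_le_right (1 - x a) (x b)]
            · rw [hyo v hva hvb]; simpa using h0 v
        · intro v
          have hm0 : 0 ≤ min (1 - x a) (x b) := le_min (by linarith [ha'.2]) hb0.le
          by_cases hva : v = a
          · rw [hva, hya]; linarith [min_le_left (1 - x a) (x b)]
          · by_cases hvb : v = b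
            · rw [hvb, hyb]; linarith
            · rw [hyo v hva hvb]; simpa using h1 v
        · have hm0 : 0 ≤ min (1 - x a) (x b) := le_min (by linarith [ha'.2]) hb0.le
          nlinarith
        · rcases le_total (1 - x a) (x b) with h2 | h2
          · right; left; rw [min_eq_left h2]; ring
          · right; right; left; rw [min_eq_right h2]; ring

end Pool.Agent.Helper5_half
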